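import Pool.Agent.Helper821_BEC.Fin

set_option autoImplicit false

/-!
Borel edge colourings of the Schreier graphs of free Borel actions, for generating sets all of whose
elements have finite order.  Only the generators of odd order cost extra colours, one for every two
inverse pairs.
-/

namespace Pool.Agent.Results.MP_110ff7_lc.TorsionGenerators

/-- Let `S` be a finite symmetric subset of a group `Γ` with `1 ∉ S`, all of whose elements have finite
order and at most `4 * n` of whose elements (that is, at most `2 * n` inverse pairs) have odd order,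
where `1 ≤ n`. Then for every free Borel action of `Γ` on a standard Borel space the Schreier graph has a
Borel proper edge colouring with `|S| + n` colours. -/
theorem result (Γ : Type) [Group Γ] (S : Finset Γ) (X : Type) [MeasurableSpace X]
    [StandardBorelSpace X] [MulAction Γ X]
    (h1 : (1 : Γ) ∉ S) (hsym : ∀ s ∈ S, s⁻¹ ∈ S)
    (htors : ∀ s ∈ S, IsOfFinOrder s)
    (n : ℕ) (hn : 1 ≤ n) (hodd : (S.filter (fun s => Odd (orderOf s))).card ≤ 4 * n)
    (hmeas : ∀ γ : Γ, Measurable (fun x : X => γ • x))
    (hfree : ∀ (γ : Γ) (x : X), γ • x = x → γ = 1) :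
    ∃ c : X × X → Fin (S.card + n), Measurable c ∧
      (∀ x y : X, c (x, y) = c (y, x)) ∧
      (∀ x y z : X, (x ≠ y ∧ ∃ s ∈ S, s • x = y) → (x ≠ z ∧ ∃ s ∈ S, s • x = z) →
        y ≠ z → c (x, y) ≠ c (x, z)) := by
  classical
  obtain ⟨k, rfl⟩ : ∃ k, n = k + 1 := ⟨n - 1, by omega⟩
  have h := Helper821_BEC.colF_all hmeas hfree S.card S rfl h1 hsym htors (k + 1) (by
    convert hodd)
  exact Helper821_BEC.colF_final (k := S.card + k) hsym hmeas hfree h

end Pool.Agent.Results.MP_110ff7_lc.TorsionGenerators
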